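import Pool.Agent.Y922.AP.Stm3

/-!
Project AQ: complex conjugation of completed Dirichlet L-functions.
-/

set_option autoImplicit false

open Complex Filter Topology Set
open scoped ComplexConjugate

namespace Pool.Agent.Y93.AQ

open Pool.Agent.Y922.AQ DirichletCharacter

theorem arg_nat_ne (n : ℕ) : ((n : ℂ)).arg ≠ Real.pi := by
  rw [show (n : ℂ) = ((n : ℝ) : ℂ) by simp, Complex.arg_ofReal_of_nonneg (Nat.cast_nonneg n)]
  exact Real.pi_ne_zero.symm

theorem natpow_conj (n : ℕ) (s : ℂ) : (n : ℂ) ^ (conj s) = conj ((n : ℂ) ^ s) := by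
  rw [Complex.cpow_conj _ _ (arg_nat_ne n), Complex.conj_natCast]

theorem gammaR_conj (s : ℂ) : Gammaℝ (conj s) = conj (Gammaℝ s) := by
  have h2 : conj (2 : ℂ) = 2 := Complex.conj_ofNat 2
  have e2 : conj s / 2 = conj (s / 2) := by rw [map_div₀, h2]
  have e3 : -conj s / 2 = conj (-s / 2) := by rw [map_div₀, map_neg, h2]
  have hpi : ((Real.pi : ℝ) : ℂ).arg ≠ Real.pi := by
    rw [Complex.arg_ofReal_of_nonneg Real.pi_pos.le]
    exact Real.pi_ne_zero.symm
  rw [Gammaℝ_def, Gammaℝ_def, e2, e3, Complex.Gamma_conj, Complex.cpow_conj _ _ hpi,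
    Complex.conj_ofReal, map_mul]

theorem even_inv {d : ℕ} (ψ : DirichletCharacter ℂ d) : ψ⁻¹.Even ↔ ψ.Even := by
  unfold DirichletCharacter.Even
  rw [MulChar.inv_apply_eq_inv', inv_eq_one]

theorem gf_conj {d : ℕ} (ψ : DirichletCharacter ℂ d) (s : ℂ) :
    gammaFactor ψ⁻¹ s = conj (gammaFactor ψ (conj s)) := by
  unfold gammaFactor
  have e1 : conj s + 1 = conj (s + 1) := by simp
  by_cases h : ψ.Even
  · rw [if_pos h, if_pos ((even_inv ψ).2 h), gammaR_conj, Complex.conj_conj]
  · rw [if_neg h, if_neg (fun h' => h ((even_inv ψ).1 h')), e1, gammaR_conj, Complex.conj_conj]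

theorem gf_ne {d : ℕ} (ψ : DirichletCharacter ℂ d) {s : ℂ} (hs : 0 < s.re) :
    gammaFactor ψ s ≠ 0 := by
  unfold gammaFactor
  split_ifs
  · exact Gammaℝ_ne_zero_of_re_pos hs
  · exact Gammaℝ_ne_zero_of_re_pos (by rw [Complex.add_re, Complex.one_re]; linarith)

theorem ls_conj {d : ℕ} [NeZero d] (ψ : DirichletCharacter ℂ d) (s : ℂ) :
    LSeries (fun n => ψ⁻¹ n) s = conj (LSeries (fun n => ψ n) (conj s)) := by
  unfold LSeries
  rw [Complex.conj_tsum]
  refine tsum_congr fun n => ?_
  rcases eq_or_ne n 0 with hn | hn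
  · rw [hn, LSeries.term_zero, LSeries.term_zero, map_zero]
  · rw [LSeries.term_of_ne_zero hn, LSeries.term_of_ne_zero hn, map_div₀, natpow_conj,
      Complex.conj_conj, ← MulChar.star_apply' ψ]
    rfl

theorem comp_conj {d : ℕ} [NeZero d] (ψ : DirichletCharacter ℂ d) (h : ψ ≠ 1) (s : ℂ) :
    completedLFunction ψ⁻¹ s = conj (completedLFunction ψ (conj s)) := by
  have hi : ψ⁻¹ ≠ 1 := fun e => h (inv_eq_one.1 e)
  have hd1 : Differentiable ℂ (completedLFunction ψ⁻¹) := differentiable_completedLFunction hi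
  have hd2 : Differentiable ℂ (fun s => conj (completedLFunction ψ (conj s))) := by
    intro z
    have h1 := (differentiable_completedLFunction h (conj z)).conj_conj
    rw [Complex.conj_conj] at h1
    exact h1
  have key : ∀ z : ℂ, 1 < z.re → completedLFunction ψ⁻¹ z = conj (completedLFunction ψ (conj z)) := by
    intro z hz
    have hz0 : z ≠ 0 := by
      rintro rfl
      rw [Complex.zero_re] at hz
      linarith
    have hz0' : conj z ≠ 0 := (map_ne_zero _).2 hz0
    have hzc : 1 < (conj z).re := by rw [Complex.conj_re]; exact hz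
    have a1 := LFunction_eq_completed_div_gammaFactor ψ⁻¹ z (Or.inl hz0)
    have a2 := LFunction_eq_completed_div_gammaFactor ψ (conj z) (Or.inl hz0')
    have g1 : gammaFactor ψ⁻¹ z ≠ 0 := gf_ne _ (by linarith)
    have g2 : gammaFactor ψ (conj z) ≠ 0 := gf_ne _ (by linarith)
    rw [LFunction_eq_LSeries _ hz, eq_div_iff g1] at a1
    rw [LFunction_eq_LSeries _ hzc, eq_div_iff g2] at a2
    rw [← a1, ← a2, map_mul, gf_conj, ls_conj]
  have hev : (completedLFunction ψ⁻¹) =ᶠ[𝓝 (2 : ℂ)] (fun s => conj (completedLFunction ψ (conj s))) := by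
    have ho : IsOpen {z : ℂ | 1 < z.re} := isOpen_lt continuous_const Complex.continuous_re
    filter_upwards [ho.mem_nhds (show (2 : ℂ) ∈ {z : ℂ | 1 < z.re} by simp)] with z hz
    exact key z hz
  have := AnalyticOnNhd.eq_of_eventuallyEq (f := completedLFunction ψ⁻¹)
    (g := fun s => conj (completedLFunction ψ (conj s)))
    (fun z _ => hd1.analyticAt z) (fun z _ => hd2.analyticAt z) hev
  exact congrFun this s

/-- characters inducing the same one -/
theorem same {m n q : ℕ} [NeZero m] [NeZero n] [NeZero q] (hmn : m = n) (hm : m ∣ q) (hn : n ∣ q)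
    (α : DirichletCharacter ℂ m) (β : DirichletCharacter ℂ n)
    (h : changeLevel hm α = changeLevel hn β) (s : ℂ) :
    (m : ℂ) ^ (s / 2) * completedLFunction α s = (n : ℂ) ^ (s / 2) * completedLFunction β s := by
  subst hmn
  rw [changeLevel_injective hm h]

theorem t_CONJ : S_CONJ := by
  intro q _ χ hχ s
  haveI i1 : NeZero χ.conductor := ⟨χ.conductor_ne_zero⟩
  haveI i2 : NeZero χ⁻¹.conductor := ⟨χ⁻¹.conductor_ne_zero⟩
  have hp : χ.primitiveCharacter ≠ 1 := by
    intro h
    apply hχ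
    rw [← changeLevel_primitiveCharacter χ, h, map_one]
  have e1 : Lam χ⁻¹ s = (χ.conductor : ℂ) ^ (s / 2) * completedLFunction (χ.primitiveCharacter)⁻¹ s := by
    show (χ⁻¹.conductor : ℂ) ^ (s / 2) * completedLFunction χ⁻¹.primitiveCharacter s = _
    refine same (conductor_inv χ) χ⁻¹.conductor_dvd_level χ.conductor_dvd_level _ _ ?_ s
    rw [changeLevel_primitiveCharacter χ⁻¹, map_inv, changeLevel_primitiveCharacter χ]
  have e2 : conj s / 2 = conj (s / 2) := by
    rw [map_div₀, show conj (2 : ℂ) = 2 from Complex.conj_ofNat 2]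
  rw [e1, comp_conj _ hp]
  show _ = conj ((χ.conductor : ℂ) ^ (conj s / 2) * completedLFunction χ.primitiveCharacter (conj s))
  rw [map_mul, e2, natpow_conj, Complex.conj_conj]

end Pool.Agent.Y93.AQ
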